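import Pool.Agent.H92.SG.Stmts

/-!
# First half of the lower bound (module INT of board sg7)
-/

namespace Pool.Agent.H41.SG

open Pool.Agent.H92.SG

theorem sh_mem_Bn {m : ℕ} {x : B} (hx : x ∈ Bn m) : sh x ∈ Bn (m + 1) := by
  refine Bn_induction (n := m) (p := fun x => sh x ∈ Bn (m + 1)) ?_ ?_ ?_ ?_ hx
  · simp only [map_one]; exact Subgroup.one_mem _
  · intro i hi
    simp only [sh_σ]
    exact σ_mem_Bn (by omega)
  · intro x _ y _ h1 h2
    simp only [map_mul]
    exact Subgroup.mul_mem _ h1 h2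
  · intro x _ h1
    simp only [map_inv]
    exact Subgroup.inv_mem _ h1

theorem sh_iter_mem_Bn {m : ℕ} {x : B} (hx : x ∈ Bn m) (j : ℕ) : (sh^[j]) x ∈ Bn (m + j) := by
  induction j with
  | zero => simpa using hx
  | succ j ih =>
    rw [Function.iterate_succ_apply']
    exact sh_mem_Bn ih

theorem β77_mem : β77 ∈ Bn 4 := by
  have h0 : σ 0 ∈ Bn 4 := σ_mem_Bn (by omega)
  have h1 : σ 1 ∈ Bn 4 := σ_mem_Bn (by omega)
  have h2 : σ 2 ∈ Bn 4 := σ_mem_Bn (by omega)
  unfold β77
  exact Subgroup.mul_mem _ (Subgroup.mul_mem _ (Subgroup.mul_mem _ (Subgroup.mul_mem _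
    (Subgroup.mul_mem _ (Subgroup.mul_mem _ (Subgroup.inv_mem _ h0) h1)
      (Subgroup.inv_mem _ h0)) h1) (Subgroup.inv_mem _ h2)) h1) (Subgroup.inv_mem _ h2)

theorem nfold_mem (n : ℕ) : nfold 4 β77 n ∈ Bn (3 * n + 1) := by
  induction n with
  | zero => exact Subgroup.one_mem _
  | succ k ih =>
    show nfold 4 β77 k * (sh^[k * (4 - 1)]) β77 ∈ Bn (3 * (k + 1) + 1)
    refine Subgroup.mul_mem _ (Bn_mono (by omega) ih) ?_
    have h := sh_iter_mem_Bn β77_mem (k * (4 - 1))
    have e : 4 + k * (4 - 1) = 3 * (k + 1) + 1 := by omega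
    rw [e] at h
    exact h

/-- The block pattern. -/
def blkF (n : ℕ) : (Fin (n + 1) → ZMod 3) →ₗ[ZMod 3] (Fin (3 * n + 1) → ZMod 3) where
  toFun u := fun i => if h : (i : ℕ) % 3 = 0 then u 0 else u ⟨(i : ℕ) / 3 + 1, by omega⟩
  map_add' u u' := by
    funext i
    simp only [Pi.add_apply]
    split_ifs <;> rfl
  map_smul' r u := by
    funext i
    simp only [Pi.smul_apply, RingHom.id_apply]
    split_ifs <;> rfl

theorem blkF_inj (n : ℕ) : Function.Injective (blkF n) := by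
  intro u u' h
  funext i
  rcases Fin.eq_zero_or_eq_succ i with rfl | ⟨j, rfl⟩
  · have := congrFun h ⟨0, by omega⟩
    simpa [blkF] using this
  · have := congrFun h ⟨3 * (j : ℕ) + 1, by omega⟩
    have e1 : ¬ ((3 * (j : ℕ) + 1) % 3 = 0) := by omega
    have e2 : (3 * (j : ℕ) + 1) / 3 + 1 = (j : ℕ) + 1 := by omega
    simp only [blkF, LinearMap.coe_mk, AddHom.coe_mk, e1, dite_false, e2] at this
    exact this

theorem blkF_pat (n : ℕ) (u : Fin (n + 1) → ZMod 3) (a : ℕ → ZMod 3)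
    (ha : ∀ i : Fin (3 * n + 1), a i = blkF n u i) :
    ∀ j < n, a (3 * j) = a (3 * j + 3) ∧ a (3 * j + 1) = a (3 * j + 2) := by
  intro j hj
  have h0 := ha ⟨3 * j, by omega⟩
  have h1 := ha ⟨3 * j + 1, by omega⟩
  have h2 := ha ⟨3 * j + 2, by omega⟩
  have h3 := ha ⟨3 * j + 3, by omega⟩
  have e0 : (3 * j) % 3 = 0 := by omega
  have e3 : (3 * j + 3) % 3 = 0 := by omega
  have e1 : ¬ ((3 * j + 1) % 3 = 0) := by omega
  have e2 : ¬ ((3 * j + 2) % 3 = 0) := by omega
  have q1 : (3 * j + 1) / 3 + 1 = j + 1 := by omega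
  have q2 : (3 * j + 2) / 3 + 1 = j + 1 := by omega
  simp only [blkF, LinearMap.coe_mk, AddHom.coe_mk, e0, e1, e2, e3, dite_true, dite_false, q1,
    q2] at h0 h1 h2 h3
  exact ⟨h0.trans h3.symm, h1.trans h2.symm⟩

/-- Fixed vectors of a product. -/
theorem fix_prod (A : Type) [CommRing A] (l : List B) (a : ℕ → A)
    (h : ∀ x ∈ l, dih A x a = a) : dih A l.prod a = a := by
  induction l with
  | nil => simp
  | cons x l ih =>
    rw [List.prod_cons, map_mul, LinearEquiv.mul_apply, ih fun y hy => h y (List.mem_cons_of_mem _ hy)]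
    exact h x List.mem_cons_self

theorem pow_dvd_iff (k : ℕ) (x : ℤ_[3]) :
    (3 : ℤ_[3]) ^ k ∣ x ↔ PadicInt.toZModPow k x = 0 := by
  rw [← RingHom.mem_ker, PadicInt.ker_toZModPow, Ideal.mem_span_singleton]
  norm_num

theorem dvd_iff (x : ℤ_[3]) : (3 : ℤ_[3]) ∣ x ↔ PadicInt.toZMod x = 0 := by
  rw [← RingHom.mem_ker, PadicInt.ker_toZMod, PadicInt.maximalIdeal_eq_span_p,
    Ideal.mem_span_singleton]
  norm_num

/-- The difference map. -/
def chi (n : ℕ) : (Fin (3 * n + 1) → ZMod 3) →ₗ[ZMod 3] (Fin n → ZMod 3) where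
  toFun v := fun j => v ⟨3 * j + 1, by omega⟩ - v ⟨3 * j, by omega⟩
  map_add' u u' := by
    funext i
    simp only [Pi.add_apply]
    ring
  map_smul' r u := by
    funext i
    simp only [Pi.smul_apply, RingHom.id_apply, smul_eq_mul]
    ring

/-- Information on a vector of the space `S`. -/
theorem core (hA : DihA) (hB : DihB) (hBLK : BlkZStmt) (n k : ℕ) (l : List B)
    (hl : l.prod = nfold 4 β77 n) (x y : ℕ → ℤ_[3])
    (hy : ∀ i < 3 * n + 1, y i = 3 ^ k * x i)
    (hd : ∀ z ∈ l, ∀ i, (3 : ℤ_[3]) ^ (k + 1) ∣ dih ℤ_[3] z y i - y i) :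
    (∀ z ∈ l, dih (ZMod (3 ^ (k + 1))) z (fun i => PadicInt.toZModPow (k + 1) (y i)) =
      fun i => PadicInt.toZModPow (k + 1) (y i)) ∧
    ∀ j < n, PadicInt.toZMod (x (3 * j)) = PadicInt.toZMod (x (3 * j + 3)) ∧
      PadicInt.toZMod (x (3 * j + 1)) = PadicInt.toZMod (x (3 * j + 2)) := by
  have h1 : ∀ z ∈ l, dih (ZMod (3 ^ (k + 1))) z (fun i => PadicInt.toZModPow (k + 1) (y i)) =
      fun i => PadicInt.toZModPow (k + 1) (y i) := by
    intro z hz
    rw [hA.nat]
    funext i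
    have := (pow_dvd_iff _ _).1 (hd z hz i)
    rw [map_sub, sub_eq_zero] at this
    exact this
  refine ⟨h1, ?_⟩
  have h2 := fix_prod _ l _ h1
  rw [hl, hA.nat] at h2
  have h3 : ∀ i, (3 : ℤ_[3]) ^ (k + 1) ∣ dih ℤ_[3] (nfold 4 β77 n) y i - y i := by
    intro i
    rw [pow_dvd_iff, map_sub, sub_eq_zero]
    exact congrFun h2 i
  have h4 : ∀ i < 3 * n + 1, (3 : ℤ_[3]) ∣ dih ℤ_[3] (nfold 4 β77 n) x i - x i := by
    intro i hi
    have e1 : dih ℤ_[3] (nfold 4 β77 n) y i = 3 ^ k * dih ℤ_[3] (nfold 4 β77 n) x i := by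
      rw [hB.loc2 ℤ_[3] (3 * n + 1) _ (nfold_mem n) y ((3 : ℤ_[3]) ^ k • x)
        (fun i hi => by rw [hy i hi]; rfl) i hi, map_smul]
      rfl
    have := h3 i
    rw [e1, hy i hi, ← mul_sub, pow_succ] at this
    exact (mul_dvd_mul_iff_left (pow_ne_zero _ (by norm_num))).1 this
  have h5 : dih (ZMod 3) (nfold 4 β77 n) (fun i => PadicInt.toZMod (x i)) =
      fun i => PadicInt.toZMod (x i) := by
    rw [hA.nat]
    funext i
    by_cases hi : i < 3 * n + 1
    · have := (dvd_iff _).1 (h4 i hi)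
      rw [map_sub, sub_eq_zero] at this
      exact this
    · rw [hB.loc1 ℤ_[3] (3 * n + 1) _ (nfold_mem n) x i (by omega)]
  exact (hBLK n _).1 h5

/-- Module INT. -/
theorem INT_thm (hABSZ : AbsZStmt) (hBLKZ : BlkZStmt) (hWT : WtStmt) (hDIHA : DihA)
    (hDIHB : DihB) : IntStmt := by
  intro n b g l hband hprod hlen hconn
  obtain ⟨S, hS1, hS2⟩ := hABSZ (3 * n + 1) b (nfold 4 β77 n) l (by omega) (nfold_mem n) hband
    hprod hconn
  -- the space of fixed vectors
  have hT := hS2 (LinearMap.range (blkF n)) (by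
    rintro v ⟨u, rfl⟩ a ha
    exact (hBLKZ n a).2 (blkF_pat n u a ha))
  rw [LinearMap.finrank_range_of_inj (blkF_inj n), Module.finrank_pi, Fintype.card_fin] at hT
  -- the pattern of the vectors in `S`
  have hpat : ∀ v ∈ S, ∀ j : ℕ, ∀ hj : j < n, v ⟨3 * j, by omega⟩ = v ⟨3 * j + 3, by omega⟩ ∧
      v ⟨3 * j + 1, by omega⟩ = v ⟨3 * j + 2, by omega⟩ := by
    intro v hv j hj
    obtain ⟨k, x, y, hx, hy, hd⟩ := hS1 v hv
    have h := (core hDIHA hDIHB hBLKZ n k l hprod x y hy hd).2 j hj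
    rw [← hx, ← hx, ← hx, ← hx]
    exact h
  have hpat0 : ∀ v ∈ S, ∀ j : ℕ, ∀ hj : j ≤ n, v ⟨3 * j, by omega⟩ = v ⟨0, by omega⟩ := by
    intro v hv j
    induction j with
    | zero => intro _; rfl
    | succ j ih =>
      intro hj
      rw [← ih (by omega)]
      exact (hpat v hv j (by omega)).1.symm
  -- the difference map
  have hker : Module.finrank (ZMod 3) (LinearMap.ker ((chi n).domRestrict S)) ≤ 1 := by
    have hle : (LinearMap.ker ((chi n).domRestrict S)).map S.subtype ≤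
        Submodule.span (ZMod 3) {fun _ => (1 : ZMod 3)} := by
      rintro w ⟨⟨v, hv⟩, hv2, rfl⟩
      rw [Submodule.mem_span_singleton]
      refine ⟨v ⟨0, by omega⟩, ?_⟩
      have hv3 : chi n v = 0 := hv2
      funext i
      have h3 : ∀ j (hj : j < n), v ⟨3 * j + 1, by omega⟩ = v ⟨3 * j, by omega⟩ := by
        intro j hj
        have := congrFun hv3 ⟨j, hj⟩
        exact sub_eq_zero.1 this
      have hi := i.2
      simp only [Pi.smul_apply, smul_eq_mul, mul_one, Submodule.subtype_apply]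
      rcases Nat.lt_or_ge ((i : ℕ) / 3) n with h | h
      · have hc : (i : ℕ) = 3 * ((i : ℕ) / 3) ∨ (i : ℕ) = 3 * ((i : ℕ) / 3) + 1 ∨
            (i : ℕ) = 3 * ((i : ℕ) / 3) + 2 := by omega
        have q0 := hpat0 v hv ((i : ℕ) / 3) h.le
        have q1 := h3 ((i : ℕ) / 3) h
        have q2 := (hpat v hv ((i : ℕ) / 3) h).2
        rcases hc with hc | hc | hc
        · rw [← q0]
          exact congrArg v (Fin.ext hc.symm)
        · rw [← q0, ← q1]
          exact congrArg v (Fin.ext hc.symm)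
        · rw [← q0, ← q1, q2]
          exact congrArg v (Fin.ext hc.symm)
      · have q0 := hpat0 v hv n le_rfl
        rw [← q0]
        exact congrArg v (Fin.ext (by show 3 * n = (i : ℕ); omega))
    rw [← Submodule.finrank_map_subtype_eq]
    refine (Submodule.finrank_mono hle).trans ?_
    rw [finrank_span_singleton (by
      intro h
      exact one_ne_zero (congrFun h ⟨0, by omega⟩))]
  have hrk := LinearMap.finrank_range_add_finrank_ker ((chi n).domRestrict S)
  obtain ⟨v', hv', hw⟩ := hWT (ZMod 3) n (LinearMap.range ((chi n).domRestrict S))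
  obtain ⟨⟨v, hvS⟩, rfl⟩ := hv'
  obtain ⟨k, x, y, hx, hy, hd⟩ := hS1 v hvS
  obtain ⟨hfix, -⟩ := core hDIHA hDIHB hBLKZ n k l hprod x y hy hd
  set z : ℕ → ℕ := fun j => if h : j < n then (chi n v ⟨j, h⟩).val else 0 with hz
  have hzw : wt n z = (Finset.univ.filter fun i => chi n v i ≠ 0).card := by
    unfold wt
    rw [← Finset.card_map ⟨Fin.val, Fin.val_injective⟩]
    congr 1
    ext j
    simp only [Finset.mem_filter, Finset.mem_range, Finset.mem_map, Finset.mem_univ, true_and,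
      Function.Embedding.coeFn_mk]
    constructor
    · rintro ⟨hj, h⟩
      refine ⟨⟨j, hj⟩, ?_, rfl⟩
      intro h0
      apply h
      simp only [hz, hj, dite_true, h0, ZMod.val_zero]
    · rintro ⟨i, hi, rfl⟩
      refine ⟨i.2, ?_⟩
      intro h0
      apply hi
      simp only [hz, i.2, dite_true] at h0
      exact (ZMod.val_eq_zero _).1 h0
  refine ⟨k, z, fun i => PadicInt.toZModPow (k + 1) (y i) - PadicInt.toZModPow (k + 1) (y 0),
    ?_, ?_, ⟨?_, ?_⟩, ?_⟩
  · intro u hu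
    have e : (fun i => PadicInt.toZModPow (k + 1) (y i) - PadicInt.toZModPow (k + 1) (y 0)) =
        (fun i => PadicInt.toZModPow (k + 1) (y i)) -
          fun _ => PadicInt.toZModPow (k + 1) (y 0) := rfl
    rw [e, map_sub, hfix u hu, hDIHA.const]
  · intro j
    simp only [hz]
    split_ifs with h
    · exact ZMod.val_lt _
    · norm_num
  · intro j hj
    have h1 : PadicInt.toZMod (x (3 * j)) = PadicInt.toZMod (x 0) := by
      have := hpat0 v hvS j hj
      rw [← hx, ← hx] at this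
      exact this
    show PadicInt.toZModPow (k + 1) (y (3 * j)) - PadicInt.toZModPow (k + 1) (y 0) = 0
    rw [← map_sub, ← pow_dvd_iff, hy _ (by omega), hy 0 (by omega), ← mul_sub, pow_succ]
    refine mul_dvd_mul_left _ ?_
    rw [dvd_iff, map_sub, h1, sub_self]
  · intro j hj
    have h1 : PadicInt.toZMod (x (3 * j)) = PadicInt.toZMod (x 0) := by
      have := hpat0 v hvS j hj.le
      rw [← hx, ← hx] at this
      exact this
    have h2 : PadicInt.toZMod (x (3 * j + 1)) = PadicInt.toZMod (x (3 * j + 2)) := by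
      have := (hpat v hvS j hj).2
      rw [← hx, ← hx] at this
      exact this
    have h3 : ((z j : ℕ) : ZMod 3) = PadicInt.toZMod (x (3 * j + 1)) -
        PadicInt.toZMod (x (3 * j)) := by
      simp only [hz, hj, dite_true, ZMod.natCast_val, ZMod.cast_id', id]
      rw [show PadicInt.toZMod (x (3 * j + 1)) = v ⟨3 * j + 1, by omega⟩ from hx ⟨3 * j + 1, by omega⟩,
        show PadicInt.toZMod (x (3 * j)) = v ⟨3 * j, by omega⟩ from hx ⟨3 * j, by omega⟩]
      rfl
    have key : ∀ i, i < 3 * n + 1 → PadicInt.toZMod (x i) = PadicInt.toZMod (x (3 * j + 1)) →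
        PadicInt.toZModPow (k + 1) (y i) - PadicInt.toZModPow (k + 1) (y 0) =
          ((3 ^ k * z j : ℕ) : ZMod (3 ^ (k + 1))) := by
      intro i hi h
      rw [← map_natCast (PadicInt.toZModPow (p := 3) (k + 1)), ← map_sub, ← sub_eq_zero,
        ← map_sub, ← pow_dvd_iff, hy _ hi, hy 0 (by omega)]
      have e : (3 : ℤ_[3]) ^ k * x i - 3 ^ k * x 0 - ((3 ^ k * z j : ℕ) : ℤ_[3]) =
          3 ^ k * (x i - x 0 - (z j : ℤ_[3])) := by
        push_cast
        ring
      rw [e, pow_succ]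
      refine mul_dvd_mul_left _ ?_
      rw [dvd_iff, map_sub, map_sub, map_natCast, h3, h, h1]
      ring
    exact ⟨key _ (by omega) rfl, key _ (by omega) h2.symm⟩
  · rw [hzw]
    have hw' : Module.finrank (ZMod 3) (LinearMap.range ((chi n).domRestrict S)) ≤
        (Finset.univ.filter fun i => chi n v i ≠ 0).card := hw
    omega

end Pool.Agent.H41.SG
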